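import Mathlib

namespace Pool.Agent.Results.MP_b09490_nt.Equiv

/-- class of n: least k >= 1 with phi^k (n) = 1 -/
noncomputable def cls (n : ℕ) : ℕ := sInf {k | 1 ≤ k ∧ Nat.totient^[k] n = 1}

/-- least members of the classes -/
def M : Set ℕ := {m | ∃ k, 1 ≤ k ∧ IsLeast {n | 2 ≤ n ∧ cls n = k} m}

/-- integers of class k smaller than 2^k -/
def S : Set ℕ := {n | ∃ k, 1 ≤ k ∧ 2 ≤ n ∧ cls n = k ∧ n < 2 ^ k}

theorem half (m : ℕ) : (2 * m).totient ≤ m := by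
  induction m using Nat.strong_induction_on with
  | _ m ih =>
    rcases Nat.even_or_odd m with h | h
    · rw [Nat.totient_two_mul_of_even h]
      obtain ⟨r, rfl⟩ := h
      rcases Nat.eq_zero_or_pos r with rfl | hr
      · simp
      · have := ih r (by omega)
        rw [← two_mul]; omega
    · rw [Nat.totient_two_mul_of_odd h]; exact Nat.totient_le _

theorem ev (k : ℕ) : ∀ n, Even n → 2 ≤ n → n < 2 ^ (k + 1) →
    ∃ j, 1 ≤ j ∧ j ≤ k ∧ Nat.totient^[j] n = 1 := by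
  induction k with
  | zero => intro n _ h1 h2; omega
  | succ k ih =>
    intro n he h1 h2
    rcases Nat.lt_or_ge 2 n with h | h
    · have e1 := Nat.totient_even h
      have e2 : 0 < n.totient := Nat.totient_pos.2 (by omega)
      obtain ⟨m, rfl⟩ := he
      have e3 := half m
      rw [two_mul] at e3
      obtain ⟨j, j1, j2, j3⟩ := ih _ e1 (by obtain ⟨r, hr⟩ := e1; omega)
        (by rw [pow_succ] at h2; omega)
      exact ⟨j + 1, by omega, by omega, j3⟩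
    · obtain rfl : n = 2 := by omega
      exact ⟨1, le_rfl, by omega, by simp⟩

theorem S_odd (n : ℕ) (h : n ∈ S) : Odd n := by
  obtain ⟨k, k1, h1, h2, h3⟩ := h
  rw [← Nat.not_even_iff_odd]
  intro he
  obtain ⟨k, rfl⟩ : ∃ j, k = j + 1 := ⟨k - 1, by omega⟩
  obtain ⟨j, j1, j2, j3⟩ := ev k n he h1 h3
  have : cls n ≤ j := Nat.sInf_le ⟨j1, j3⟩
  omega

theorem it (j m : ℕ) : Nat.totient^[j] (2 ^ (m + j)) = 2 ^ m := by
  induction j with
  | zero => rfl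
  | succ j ih =>
    rw [Function.iterate_succ_apply, ← add_assoc, Nat.totient_prime_pow_succ Nat.prime_two]
    simpa using ih

theorem cls_pow (k : ℕ) (hk : 1 ≤ k) : cls (2 ^ k) = k := by
  have h1 : k ∈ {j | 1 ≤ j ∧ Nat.totient^[j] (2 ^ k) = 1} := ⟨hk, by simpa using it k 0⟩
  refine le_antisymm (Nat.sInf_le h1) ?_
  by_contra c
  have h2 := (Nat.sInf_mem ⟨_, h1⟩).2
  rw [show sInf _ = cls (2 ^ k) from rfl] at h2
  generalize cls (2 ^ k) = j at *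
  obtain ⟨m, rfl⟩ : ∃ m, k = m + 1 + j := ⟨k - j - 1, by omega⟩
  rw [it] at h2
  have : 1 < 2 ^ (m + 1) := Nat.one_lt_two_pow (by omega)
  omega

theorem result : (∀ n ∈ S, Odd n) ∧ {m ∈ M | Odd m} = M ∩ S ∧
    ({n ∈ S | Odd n}.Infinite ↔ {m ∈ M | Odd m}.Infinite) := by
  have sub : {m ∈ M | Odd m} ⊆ S := by
    rintro m ⟨⟨k, k1, h1, h2⟩, ho⟩
    have h3 : m ≤ 2 ^ k := h2 ⟨Nat.le_self_pow (by omega) 2, cls_pow k k1⟩
    refine ⟨k, k1, h1.1, h1.2, lt_of_le_of_ne h3 ?_⟩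
    rintro rfl
    exact (Nat.not_even_iff_odd.2 ho) ((Nat.even_pow' (by omega)).2 even_two)
  refine ⟨S_odd, Set.ext fun m => ⟨fun h => ⟨h.1, sub h⟩, fun h => ⟨h.1, S_odd m h.2⟩⟩, ?_, ?_⟩
  · intro h hf
    apply h
    refine (hf.biUnion fun m _ => Set.finite_Iio (2 ^ cls m)).subset ?_
    rintro n ⟨⟨k, k1, h1, h2, h3⟩, -⟩
    have hne : {n | 2 ≤ n ∧ cls n = k}.Nonempty := ⟨n, h1, h2⟩
    have m1 := Nat.sInf_mem hne
    have m2 : sInf {n | 2 ≤ n ∧ cls n = k} ≤ n := Nat.sInf_le ⟨h1, h2⟩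
    refine Set.mem_biUnion (x := sInf {n | 2 ≤ n ∧ cls n = k})
      ⟨⟨k, k1, m1, fun _ h => Nat.sInf_le h⟩, S_odd _ ⟨k, k1, m1.1, m1.2, by omega⟩⟩ ?_
    rw [m1.2]; exact h3
  · exact fun h => h.mono fun m hm => ⟨sub hm, hm.2⟩

end Pool.Agent.Results.MP_b09490_nt.Equiv
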